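import Mathlib

set_option autoImplicit false

namespace Pool.Agent.H.MP_ec84ce_an

open Set Filter Topology MeasureTheory

variable {E : Type*} [AddCommGroup E] [Module ℝ E]

/-- nonnegative sublinear functionals -/
structure Sub (p : E → ℝ) : Prop where
  nn : ∀ x, 0 ≤ p x
  hom : ∀ c : ℝ, 0 ≤ c → ∀ x, p (c • x) = c * p x
  add : ∀ x y, p (x + y) ≤ p x + p y

theorem Sub.lip {p : E → ℝ} (h : Sub p) {ι : Type*} [Fintype ι] (y : E) (L : (ι → ℝ) →ₗ[ℝ] E) :
    LocallyLipschitz fun s => p (y + L s) := ConvexOn.locallyLipschitz ⟨convex_univ, fun s _ t _ a b a0 b0 e => by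
  beta_reduce
  rw [show y + L (a • s + b • t) = a • (y + L s) + b • (y + L t) by
    rw [map_add, map_smul, map_smul, smul_add, smul_add, add_add_add_comm, Convex.combo_self e]]
  exact (h.add _ _).trans_eq (by rw [h.hom _ a0, h.hom _ b0]; rfl)⟩

theorem smooth {p q : E → ℝ} (hp : Sub p) (hq : Sub q) (d : Finset ((E →ₗ[ℝ] ℝ) × E)) {y : E} (h1 : q y < p y)
    (h2 : ∀ z ∈ d, (∀ x, z.1 x ≤ p x) → z.1 y < p y) : ∃ (y : E) (f : E →ₗ[ℝ] ℝ), q y < 1 ∧ p y = 1 ∧ (∀ x, f x ≤ p x) ∧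
      ∀ z ∈ d, ((∀ x, z.1 x ≤ p x) → z.1 y < 1) ∧ ∀ η > 0, ∃ t > 0, p (y + t • z.2) < 1 + t * (f z.2 + η) := by
  classical
  let L := Fintype.linearCombination ℝ fun z : d => z.1.2
  obtain ⟨K, t, t0, hK⟩ := hp.lip y L 0
  have c := (hp.lip y L).continuous
  have w : ∀ᶠ s in 𝓝 0, s ∈ interior t ∧ q (y + L s) < p (y + L s) ∧
      ∀ z ∈ d, (∀ x, z.1 x ≤ p x) → z.1 (y + L s) < p (y + L s) :=
    Eventually.and (interior_mem_nhds.2 t0)
      (((hq.lip y L).continuous.continuousAt.eventually_lt c.continuousAt (by simpa)).and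
        ((eventually_all_finset _).2 fun z hz => eventually_imp_distrib_left.2 fun k =>
          ContinuousAt.eventually_lt (by
            simp only [map_add]
            exact (continuous_const.add (z.1 ∘ₗ L).continuous_of_finiteDimensional).continuousAt)
              c.continuousAt (by simpa using h2 z hz k)))
  obtain ⟨s, ⟨s1, s2, s3⟩, s4⟩ := ((frequently_ae_iff.2 (Measure.measure_pos_of_mem_nhds volume w).ne').and_eventually
    hK.ae_differentiableWithinAt_of_mem).exists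
  replace s4 := (s4 (interior_subset s1)).differentiableAt (mem_interior_iff_mem_nhds.1 s1)
  generalize e : y + L s = u at s2 s3
  have u0 := (hq.nn u).trans_lt s2
  have u1 : u ≠ 0 := fun e => u0.ne' (by simpa [e] using hp.hom 0 le_rfl u)
  obtain ⟨f, f1, f2⟩ := exists_extension_of_le_sublinear (LinearPMap.mkSpanSingleton u (p u) u1) p
    (fun c h => hp.hom c h.le) hp.add fun ⟨x, hx⟩ => by
      obtain ⟨c, rfl⟩ := Submodule.mem_span_singleton.1 hx
      rw [LinearPMap.mkSpanSingleton'_apply]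
      rcases le_total 0 c with h | h
      · exact (hp.hom c h u).ge
      exact (mul_nonpos_of_nonpos_of_nonneg h u0.le).trans (hp.nn _)
  replace f1 : f u = p u := (f1 ⟨u, Submodule.mem_span_singleton_self u⟩).trans (LinearPMap.mkSpanSingleton_apply ..)
  have i := inv_pos.2 u0
  refine ⟨(p u)⁻¹ • u, f, by rwa [hq.hom _ i.le, inv_mul_lt_one₀ u0], by rw [hp.hom _ i.le, inv_mul_cancel₀ u0.ne'],
    f2, fun z hz => ⟨fun k => by rw [map_smul, smul_eq_mul, inv_mul_lt_one₀ u0]; exact s3 z hz k, fun η η0 => ?_⟩⟩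
  have D : DifferentiableAt ℝ (fun t : ℝ => p (u + t • z.2) - t * f z.2) 0 := by
    refine .sub ?_ (by fun_prop)
    have := DifferentiableAt.comp (f := fun t : ℝ => s + t • (Pi.single ⟨z, hz⟩ 1 : d → ℝ)) 0 (by simpa using s4)
      (by fun_prop)
    simpa [Function.comp_def, L, ← add_assoc, ← e] using this
  have := D.hasDerivAt
  rw [IsLocalMin.deriv_eq_zero (.of_forall fun t => by simpa [f1, le_sub_iff_add_le] using f2 (u + t • z.2))] at this
  obtain ⟨t, t1, t2⟩ := ((this.tendsto_slope_zero_right.eventually (gt_mem_nhds η0)).and self_mem_nhdsWithin).exists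
  replace t2 : 0 < t := t2
  refine ⟨(p u)⁻¹ * t, by positivity, ?_⟩
  rw [mul_smul, ← smul_add, hp.hom _ i.le, inv_mul_lt_iff₀ u0, mul_add, mul_assoc, mul_inv_cancel_left₀ u0.ne']
  simp only [zero_add, zero_smul, add_zero, zero_mul, sub_zero, smul_eq_mul, inv_mul_lt_iff₀ t2] at t1
  linarith

theorem core {p q : E → ℝ} (hp : Sub p) (hq : Sub q)
    (h : ∀ Φ : Finset (E →ₗ[ℝ] ℝ), ∃ y, q y < p y ∧ ∀ f ∈ Φ, (∀ x, f x ≤ p x) → f y < p y) :
    ∃ a : ℕ → E, (∀ k, q (a k) < 1 ∧ 1 < p (a k)) ∧ ∀ k l, k < l → ∃ z ∈ segment ℝ (a k) (a l), p z < 1 := by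
  classical
  choose y f h1 h2 h3 h4 using fun d : Finset ((E →ₗ[ℝ] ℝ) × E) => (h (d.image Prod.fst)).elim
    fun y k => smooth hp hq d k.1 fun z hz => k.2 _ (Finset.mem_image_of_mem _ hz)
  obtain ⟨U, hU⟩ := Ultrafilter.exists_le (atTop : Filter (Finset ((E →ₗ[ℝ] ℝ) × E)))
  have u : ∀ z, ∀ᶠ d : Finset ((E →ₗ[ℝ] ℝ) × E) in U, z ∈ d := fun z =>
    ((eventually_ge_atTop {z}).mono fun d => Finset.singleton_subset_iff.1).filter_mono hU
  choose F F1 F2 using fun x => (isCompact_Icc (a := -p (-x)) (b := p x)).ultrafilter_le_nhds' (U.map (f · x))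
    (.of_forall fun d => ⟨by simpa [neg_le] using h3 d (-x), h3 d x⟩ : ∀ᶠ d : Finset ((E →ₗ[ℝ] ℝ) × E) in U, _)
  replace F2 : ∀ x, Tendsto (f · x) U (𝓝 (F x)) := F2
  let G : E →ₗ[ℝ] ℝ := ⟨⟨F, fun x z => tendsto_nhds_unique (F2 _) (by simpa using (F2 x).add (F2 z))⟩,
    fun c x => tendsto_nhds_unique (F2 _) (by simpa using (F2 x).const_mul c)⟩
  have w := exists_seq_of_forall_finset_exists
    (fun a => (q a < 1 ∧ 1 < p a) ∧ ∀ᶠ d : Finset ((E →ₗ[ℝ] ℝ) × E) in U, ∃ z ∈ segment ℝ a (y d), p z < 1)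
    (fun a b => ∃ z ∈ segment ℝ a b, p z < 1) fun s hs => ?_
  · exact w.imp fun a w => ⟨fun k => (w.1 k).1, w.2⟩
  obtain ⟨d, d1, d2⟩ := ((u (G, 0)).and ((eventually_all_finset s).2 fun a ha => (hs a ha).2)).exists
  replace d1 : F (y d) < 1 := (h4 d _ d1).1 fun x => (F1 x).2
  have l : ∀ b c : ℝ, b < c → ∀ᶠ t in 𝓝[>] (1 : ℝ), t * b < c := fun b c h => nhdsWithin_le_nhds
    (ContinuousAt.eventually_lt (f := (· * b)) (by fun_prop) continuousAt_const (by simpa))
  obtain ⟨η, η0, η1⟩ := exists_between (show 0 < (1 - F (y d)) / 2 by linarith)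
  have w := ((((l _ _ (h1 d)).and (l (F (y d) + 2 * η) 1 (by linarith))).and
    self_mem_nhdsWithin).and ((eventually_all_finset s (p := fun a t => ∃ z ∈ segment ℝ a (t • y d), p z < 1)).2
      fun a ha => ?_)).exists
  · obtain ⟨t, ⟨⟨t1, t2⟩, t3⟩, t4⟩ := w
    replace t3 : 1 < t := t3
    have t0 := one_pos.trans t3
    refine ⟨t • y d, ⟨⟨by rwa [hq.hom _ t0.le], by rwa [hp.hom _ t0.le, h2, mul_one]⟩, ?_⟩, t4⟩
    filter_upwards [u (0, y d), (F2 (y d)).eventually (gt_mem_nhds (lt_add_of_pos_right _ η0))] with e e1 e2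
    obtain ⟨r, r0, r1⟩ := (h4 e _ e1).2 η η0
    have : 0 < t + r := by linarith
    refine ⟨(t / (t + r)) • (y e + r • y d), ⟨r / (t + r), t / (t + r), by positivity, by positivity, by
      field_simp; ring, by match_scalars <;> ring⟩, ?_⟩
    rw [hp.hom _ (by positivity), div_mul_eq_mul_div, div_lt_one this]
    nlinarith [mul_lt_mul_of_pos_left r1 t0, mul_lt_mul_of_pos_left t2 r0, mul_lt_mul_of_pos_left e2 (mul_pos t0 r0)]
  obtain ⟨_, ⟨α, β, α0, β0, e, rfl⟩, z⟩ := d2 a ha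
  filter_upwards [l 1 (2 - p (α • a + β • y d)) (by linarith), self_mem_nhdsWithin] with t t1 t2
  replace t2 : 0 ≤ t - 1 := sub_nonneg.2 (le_of_lt t2)
  refine ⟨_, ⟨α, β, α0, β0, e, rfl⟩, ?_⟩
  rw [show α • a + β • t • y d = α • a + β • y d + (β * (t - 1)) • y d by module]
  refine (hp.add _ _).trans_lt ?_
  rw [hp.hom _ (by positivity), h2]
  nlinarith

theorem subc {ι : Type} {K : Set E} (hK : Convex ℝ K) (h0 : 0 ∈ K) (s : Finset ι) {μ : ι → ℝ} {z : ι → E}
    (hμ : ∀ i, 0 ≤ μ i) (hs : ∑ i ∈ s, μ i ≤ 1) (hz : ∀ i, z i ∈ K) : ∑ i ∈ s, μ i • z i ∈ K := by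
  simpa using hK.sum_mem (t := s.insertNone) (w := fun i => i.elim (1 - ∑ i ∈ s, μ i) μ) (z := fun i => i.elim 0 z)
    (fun i _ => by cases i <;> simp [hs, hμ]) (by simp) fun i _ => by cases i <;> simp [h0, hz]

theorem inner {X : Type*} [AddCommGroup X] [Module ℝ X] [MetricSpace X] [IsTopologicalAddGroup X]
    [ContinuousSMul ℝ X] [CompleteSpace X] {C : Set X} (hC : Convex ℝ C) (cC : IsClosed C) {y : ℕ → X}
    (hy : ∀ k, y k ∈ C) : ∃ (c : X) (W : Submodule ℝ X), (∀ k, y k - c ∈ W) ∧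
      ∀ v ∈ W, ∀ᶠ t in 𝓝 (0 : ℝ), c + t • v ∈ C := by
  choose Λ l1 l0 using fun (c : X) (m : ℕ) => (((ContinuousAt.eventually_lt
    (f := fun t : ℝ => dist c (c + t • (y m - y 0))) (g := fun _ => 1 / 2 / 2 ^ m) (x₀ := 0) (by fun_prop)
      continuousAt_const (by simp)).and (gt_mem_nhds (show (0 : ℝ) < 2⁻¹ / 2 / 2 ^ m by positivity))).filter_mono
        nhdsWithin_le_nhds |>.and (self_mem_nhdsWithin (s := Ioi 0))).exists
  replace l0 : ∀ c m, 0 < Λ c m := l0
  choose l1 l2 using l1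
  let c : ℕ → X := fun m => m.rec 0 fun m c => c + Λ c m • (y m - y 0)
  obtain ⟨x, hx⟩ := cauchySeq_tendsto_of_complete (cauchySeq_of_le_geometric_two (f := c) fun m => (l1 _ m).le)
  have e : ∀ m, c m = ∑ k ∈ Finset.range m, Λ (c k) k • (y k - y 0) := fun m => by
    induction m with
    | zero => rfl
    | succ m i => rw [Finset.sum_range_succ, ← i]
  have s : ∀ m, ∑ k ∈ Finset.range m, Λ (c k) k ≤ 2⁻¹ := fun m => (Finset.sum_le_sum fun k _ => (l2 _ k).le).trans
    (((summable_geometric_two' _).sum_le_tsum _ fun _ _ => by positivity).trans_eq (tsum_geometric_two' _))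
  have k : ∀ θ : ℕ → ℝ, (∀ k, θ k ∈ Icc 0 2) → ∀ m, y 0 + ∑ k ∈ Finset.range m, (θ k * Λ (c k) k) • (y k - y 0) ∈ C :=
    fun θ hθ m => subc (hC.translate_preimage_right (y 0)) (by simpa using hy 0) _
      (fun k => mul_nonneg (hθ k).1 (l0 _ _).le) ((Finset.sum_le_sum fun k _ =>
        mul_le_mul_of_nonneg_right (hθ k).2 (l0 _ _).le).trans (by rw [← Finset.mul_sum]; linarith [s m]))
          fun k => by simpa using hy k
  let W : Submodule ℝ X :=
    { carrier := {v | ∀ᶠ t in 𝓝 (0 : ℝ), y 0 + x + t • v ∈ C}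
      add_mem' := fun {a b} ha hb => by
        have t : Tendsto (fun t : ℝ => 2 * t) (𝓝 0) (𝓝 0) := (continuous_const_mul 2).tendsto' _ _ (by simp)
        filter_upwards [t.eventually ha, t.eventually hb] with t h1 h2
        convert hC h1 h2 (a := 2⁻¹) (b := 2⁻¹) (by norm_num) (by norm_num) (by norm_num) using 1
        module
      zero_mem' := .of_forall fun t => by
        simpa using cC.mem_of_tendsto (hx.const_add _) (.of_forall fun m => by
          simpa [← e] using k (fun _ => 1) (by simp) m)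
      smul_mem' := fun r v h => by
        simpa only [mem_ofPred_eq, smul_smul] using ((continuous_mul_const r).tendsto' 0 _ (by simp)).eventually h }
  have i : ∀ᶠ t : ℝ in 𝓝 0, 1 + t ∈ Icc 0 2 :=
    (continuous_const_add 1).continuousAt.eventually (Icc_mem_nhds (by norm_num) (by norm_num))
  refine ⟨y 0 + x, W, fun j => ?_, fun _ h => h⟩
  rw [sub_add_eq_sub_sub]
  refine W.sub_mem ((W.smul_mem_iff (l0 (c j) j).ne').1 (i.mono fun t ht => ?_)) (i.mono fun t ht => ?_)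
  · refine cC.mem_of_tendsto ((hx.const_add _).add_const _) ((eventually_gt_atTop j).mono fun m hm => ?_)
    convert k (fun i => 1 + if i = j then t else 0) (fun i => by split_ifs <;> simp [ht]) m using 1
    simp [add_mul, add_smul, Finset.sum_add_distrib, ← e, ite_smul, hm, add_assoc, smul_smul]
  refine cC.mem_of_tendsto ((hx.const_add _).add (hx.const_smul t)) (.of_forall fun m => ?_)
  convert k (fun _ => 1 + t) (fun _ => ht) m using 1
  simp only [mul_smul, ← Finset.smul_sum, ← e]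
  module

end Pool.Agent.H.MP_ec84ce_an
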